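import Pool.Agent.H586.AF.C

/-!
# Project AF of helper586: the block 11 of the Hessian (task AF-Q11)
-/

set_option autoImplicit false
set_option linter.unusedVariables false
set_option linter.unusedSectionVars false

open Matrix Finset

namespace Pool.Agent.H86.AF

open Pool.Agent.H586.AF

noncomputable section

/-! ### Products over the directions -/

section k4
variable {a b c d a' b' c' d' a'' b'' c'' d'' : Type} [Fintype a'] [Fintype b'] [Fintype c']
  [Fintype d']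

lemma k4_sum (A : Matrix a a' ℂ) (B : Matrix b b' ℂ) (C : Matrix c c' ℂ) (D : Matrix d d' ℂ)
    (f : a' × b' × c' × d' → ℂ) (i : a × b × c × d) :
    ∑ j, k4 A B C D i j * f j = ∑ x', A i.1 x' * ∑ y', B i.2.1 y' * ∑ z', C i.2.2.1 z' *
      ∑ h', D i.2.2.2 h' * f (x', y', z', h') := by
  simp only [Fintype.sum_prod_type, k4, Finset.mul_sum]
  refine Finset.sum_congr rfl fun x' _ => Finset.sum_congr rfl fun y' _ =>
    Finset.sum_congr rfl fun z' _ => Finset.sum_congr rfl fun h' _ => ?_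
  ring

lemma k4_mul (A : Matrix a a' ℂ) (B : Matrix b b' ℂ) (C : Matrix c c' ℂ) (D : Matrix d d' ℂ)
    (A' : Matrix a' a'' ℂ) (B' : Matrix b' b'' ℂ) (C' : Matrix c' c'' ℂ) (D' : Matrix d' d'' ℂ) :
    k4 A B C D * k4 A' B' C' D' = k4 (A * A') (B * B') (C * C') (D * D') := by
  ext i l
  rw [Matrix.mul_apply, k4_sum]
  have e4 : ∀ x' y' z', ∑ h', D i.2.2.2 h' * k4 A' B' C' D' (x', y', z', h') l =
      A' x' l.1 * B' y' l.2.1 * C' z' l.2.2.1 * (D * D') i.2.2.2 l.2.2.2 := by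
    intro x' y' z'
    rw [Matrix.mul_apply, Finset.mul_sum]
    refine Finset.sum_congr rfl fun h' _ => ?_
    unfold k4
    ring
  simp only [e4]
  have e3 : ∀ x' y', ∑ z', C i.2.2.1 z' * (A' x' l.1 * B' y' l.2.1 * C' z' l.2.2.1 *
      (D * D') i.2.2.2 l.2.2.2) =
      A' x' l.1 * B' y' l.2.1 * (C * C') i.2.2.1 l.2.2.1 * (D * D') i.2.2.2 l.2.2.2 := by
    intro x' y'
    rw [Matrix.mul_apply (M := C) (N := C'), Finset.mul_sum, Finset.sum_mul]
    refine Finset.sum_congr rfl fun h' _ => ?_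
    ring
  simp only [e3]
  have e2 : ∀ x', ∑ y', B i.2.1 y' * (A' x' l.1 * B' y' l.2.1 * (C * C') i.2.2.1 l.2.2.1 *
      (D * D') i.2.2.2 l.2.2.2) =
      A' x' l.1 * (B * B') i.2.1 l.2.1 * (C * C') i.2.2.1 l.2.2.1 * (D * D') i.2.2.2 l.2.2.2 := by
    intro x'
    rw [Matrix.mul_apply (M := B) (N := B'), Finset.mul_sum, Finset.sum_mul, Finset.sum_mul]
    refine Finset.sum_congr rfl fun h' _ => ?_
    ring
  simp only [e2]
  show _ = (A * A') i.1 l.1 * (B * B') i.2.1 l.2.1 * (C * C') i.2.2.1 l.2.2.1 *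
    (D * D') i.2.2.2 l.2.2.2
  rw [Matrix.mul_apply (M := A) (N := A'), Finset.sum_mul, Finset.sum_mul, Finset.sum_mul]
  refine Finset.sum_congr rfl fun h' _ => ?_
  ring

lemma k4_ct (A : Matrix a a' ℂ) (B : Matrix b b' ℂ) (C : Matrix c c' ℂ) (D : Matrix d d' ℂ) :
    (k4 A B C D)ᴴ = k4 Aᴴ Bᴴ Cᴴ Dᴴ := by
  ext i j
  simp only [k4, Matrix.conjTranspose_apply, star_mul']

end k4

lemma one_sum {n : Type} [Fintype n] [DecidableEq n] (i : n) (g : n → ℂ) :
    ∑ j, (1 : Matrix n n ℂ) i j * g j = g i := by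
  simp [Matrix.one_apply]

lemma diag_sum {n : Type} [Fintype n] [DecidableEq n] (d : n → ℂ) (i : n) (g : n → ℂ) :
    ∑ j, Matrix.diagonal d i j * g j = d i * g i := by
  simp [Matrix.diagonal_apply]

/-! ### One direction -/

/-- extension by zero; the site `i + 1` has the value `f i` -/
def ext1 (m : ℕ) (f : Fin m → ℂ) (z : ℕ) : ℂ :=
  if c : z - 1 < m ∧ 1 ≤ z then f ⟨z - 1, c.1⟩ else 0

section one
variable {m : ℕ} (f : Fin m → ℂ)

lemma ext1_succ (p : Fin m) : ext1 m f ((p : ℕ) + 1) = f p := by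
  unfold ext1
  rw [dif_pos ⟨by simp, by omega⟩]
  rfl

lemma ext1_zero : ext1 m f 0 = 0 := by
  unfold ext1
  rw [dif_neg (by omega)]

lemma ext1_top : ext1 m f (m + 1) = 0 := by
  unfold ext1
  rw [dif_neg (by omega)]

lemma sum_eq0 (j : ℕ) : ∑ i : Fin m, (if (i : ℕ) = j then (1 : ℂ) else 0) * f i =
    ext1 m f (j + 1) := by
  by_cases h : j < m
  · rw [Finset.sum_eq_single (⟨j, h⟩ : Fin m)]
    · rw [if_pos rfl, one_mul]
      exact (ext1_succ f ⟨j, h⟩).symm
    · intro i _ hi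
      rw [if_neg (fun hj => hi (Fin.ext hj)), zero_mul]
    · intro h1
      exact absurd (Finset.mem_univ _) h1
  · rw [Finset.sum_eq_zero]
    · unfold ext1
      rw [dif_neg (by omega)]
    · intro i _
      rw [if_neg (by have := i.2; omega), zero_mul]

lemma sum_eq1 (j : ℕ) : ∑ i : Fin m, (if (i : ℕ) + 1 = j then (1 : ℂ) else 0) * f i =
    ext1 m f j := by
  rcases Nat.eq_zero_or_pos j with h | h
  · subst h
    rw [ext1_zero]
    refine Finset.sum_eq_zero fun i _ => ?_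
    rw [if_neg (by omega), zero_mul]
  · obtain ⟨k, rfl⟩ : ∃ k, j = k + 1 := ⟨j - 1, by omega⟩
    rw [← sum_eq0]
    refine Finset.sum_congr rfl fun i _ => ?_
    simp only [Nat.add_right_cancel_iff]

/-- the difference -/
lemma dm_sum (n : ℕ) (j : Fin n) : ∑ i : Fin m, ((dm n m j i : ℝ) : ℂ) * f i =
    ext1 m f ((j : ℕ) + 1) - ext1 m f j := by
  rw [← sum_eq0, ← sum_eq1, ← Finset.sum_sub_distrib]
  refine Finset.sum_congr rfl fun i _ => ?_
  unfold dm
  split_ifs <;> simp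

lemma tm_sum (p : Fin m) : ∑ i : Fin m, (cx (tm m)) p i * f i = ext1 m f ((p : ℕ) + 2) := by
  rw [← sum_eq0]
  refine Finset.sum_congr rfl fun i _ => ?_
  simp only [Matrix.map_apply, tm]
  split_ifs <;> simp

lemma tmT_sum (p : Fin m) : ∑ i : Fin m, (cx (tm m)ᵀ) p i * f i = ext1 m f p := by
  rw [← sum_eq1]
  refine Finset.sum_congr rfl fun i _ => ?_
  simp only [Matrix.map_apply, tm, Matrix.transpose_apply]
  by_cases h : (p : ℕ) = i + 1
  · rw [if_pos h, if_pos h.symm]; simp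
  · rw [if_neg h, if_neg (fun h' => h h'.symm)]; simp

lemma re_self (z : ℂ) : (star z * z).re = ‖z‖ ^ 2 := by
  rw [← Complex.normSq_eq_norm_sq]
  simp [Complex.normSq_apply]

/-- the quadratic form of `dmᵀ dm` -/
lemma dd_form (n : ℕ) : (∑ i, star (f i) * ∑ i', (cx ((dm n m)ᵀ * dm n m)) i i' * f i').re =
    ∑ j : Fin n, ‖ext1 m f ((j : ℕ) + 1) - ext1 m f j‖ ^ 2 := by
  have h1 : ∀ i, ∑ i', (cx ((dm n m)ᵀ * dm n m)) i i' * f i' =
      ∑ j : Fin n, ((dm n m j i : ℝ) : ℂ) * (ext1 m f ((j : ℕ) + 1) - ext1 m f j) := by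
    intro i
    simp only [← dm_sum, Finset.mul_sum, Matrix.map_apply, Matrix.mul_apply,
      Matrix.transpose_apply]
    rw [Finset.sum_comm]
    refine Finset.sum_congr rfl fun i' _ => ?_
    push_cast
    rw [Finset.sum_mul]
    refine Finset.sum_congr rfl fun j _ => ?_
    ring
  have h2 : ∑ i, star (f i) * ∑ i', (cx ((dm n m)ᵀ * dm n m)) i i' * f i' =
      ∑ j : Fin n, star (ext1 m f ((j : ℕ) + 1) - ext1 m f j) *
        (ext1 m f ((j : ℕ) + 1) - ext1 m f j) := by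
    simp only [h1, Finset.mul_sum]
    rw [Finset.sum_comm]
    refine Finset.sum_congr rfl fun j _ => ?_
    have h3 : star (ext1 m f ((j : ℕ) + 1) - ext1 m f j) =
        ∑ i, star (f i) * ((dm n m j i : ℝ) : ℂ) := by
      rw [← dm_sum, star_sum]
      refine Finset.sum_congr rfl fun i _ => ?_
      rw [star_mul', mul_comm]
      congr 1
      exact Complex.conj_ofReal _
    rw [h3, Finset.sum_mul]
    refine Finset.sum_congr rfl fun i _ => ?_
    ring
  rw [h2, Complex.re_sum]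
  exact Finset.sum_congr rfl fun j _ => re_self _

lemma shift0 {M : Type} [AddCommMonoid M] (g : ℕ → M) (h : g 0 = 0) :
    ∑ y ∈ range (m + 1), g y = ∑ p : Fin m, g ((p : ℕ) + 1) := by
  rw [Finset.sum_range_succ', h, add_zero, Finset.sum_range]

lemma shift1 {M : Type} [AddCommMonoid M] (g : ℕ → M) (h : g m = 0) :
    ∑ y ∈ range (m + 1), g y = ∑ p : Fin m, g p := by
  rw [Finset.sum_range_succ, h, add_zero, Finset.sum_range]

/-- the covariant hopping -/
lemma hop (c : ℝ) (u : ℂ) :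
    ∑ y ∈ range (m + 1), ((1 / 2) * c * (‖ext1 m f y‖ ^ 2 + ‖ext1 m f (y + 1)‖ ^ 2) -
      (star u * ext1 m f y * star (ext1 m f (y + 1))).re) =
    (1 / 2) * (∑ p, star (f p) * (2 * (c : ℂ) * f p - u * ext1 m f ((p : ℕ) + 2) -
      star u * ext1 m f p)).re := by
  have a1 : ∑ y ∈ range (m + 1), ‖ext1 m f y‖ ^ 2 = ∑ p, ‖f p‖ ^ 2 := by
    rw [shift0 _ (by rw [ext1_zero]; simp)]
    exact Finset.sum_congr rfl fun p _ => by rw [ext1_succ]
  have a2 : ∑ y ∈ range (m + 1), ‖ext1 m f (y + 1)‖ ^ 2 = ∑ p, ‖f p‖ ^ 2 := by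
    rw [shift1 _ (by rw [ext1_top]; simp)]
    exact Finset.sum_congr rfl fun p _ => by rw [ext1_succ]
  have b1 : ∑ y ∈ range (m + 1), (star u * ext1 m f y * star (ext1 m f (y + 1))).re =
      ∑ p, (star (f p) * (u * ext1 m f ((p : ℕ) + 2))).re := by
    rw [shift0 _ (by rw [ext1_zero]; simp)]
    refine Finset.sum_congr rfl fun p _ => ?_
    rw [ext1_succ]
    have h : star (f p) * (u * ext1 m f ((p : ℕ) + 2)) =
        star (star u * f p * star (ext1 m f ((p : ℕ) + 1 + 1))) := by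
      rw [star_mul', star_mul', star_star, star_star]
      ring
    rw [h]
    exact (Complex.conj_re _).symm
  have b2 : ∑ y ∈ range (m + 1), (star u * ext1 m f y * star (ext1 m f (y + 1))).re =
      ∑ p, (star (f p) * (star u * ext1 m f p)).re := by
    rw [shift1 _ (by rw [ext1_top]; simp)]
    refine Finset.sum_congr rfl fun p _ => ?_
    rw [ext1_succ]
    congr 1
    ring
  have e1 : (∑ p, star (f p) * (2 * (c : ℂ) * f p - u * ext1 m f ((p : ℕ) + 2) -
      star u * ext1 m f p)).re = 2 * c * ∑ p, ‖f p‖ ^ 2 -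
      ∑ p, (star (f p) * (u * ext1 m f ((p : ℕ) + 2))).re -
      ∑ p, (star (f p) * (star u * ext1 m f p)).re := by
    rw [Complex.re_sum, Finset.mul_sum, ← Finset.sum_sub_distrib, ← Finset.sum_sub_distrib]
    refine Finset.sum_congr rfl fun p _ => ?_
    rw [mul_sub, mul_sub, Complex.sub_re, Complex.sub_re]
    congr 2
    rw [← re_self, ← Complex.re_ofReal_mul]
    congr 1
    push_cast
    ring
  rw [e1, ← b1, ← b2, Finset.sum_sub_distrib, ← Finset.mul_sum, Finset.sum_add_distrib, a1, a2]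
  ring

lemma hop' (c : ℝ) (u : ℂ) (L : ℕ) (hL : L = m + 1) :
    ∑ y ∈ range L, ((1 / 2) * c * (‖ext1 m f y‖ ^ 2 + ‖ext1 m f (y + 1)‖ ^ 2) -
      (star u * ext1 m f y * star (ext1 m f (y + 1))).re) =
    (1 / 2) * (∑ p, star (f p) * (2 * (c : ℂ) * f p - u * ext1 m f ((p : ℕ) + 2) -
      star u * ext1 m f p)).re := by
  subst hL
  exact hop f c u

end one

/-! ### The block -/

/-- the phase -/
def uu (θ : ℝ) (x : ℕ) : ℂ := Complex.exp (Complex.I * ((θ * ((x : ℝ) + 1 / 2) : ℝ) : ℂ))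

lemma star_uu (θ : ℝ) (x : ℕ) :
    star (uu θ x) = Complex.exp (Complex.I * ((-(θ * ((x : ℝ) + 1 / 2)) : ℝ) : ℂ)) := by
  unfold uu
  show (starRingEnd ℂ) _ = _
  rw [← Complex.exp_conj]
  congr 1
  rw [map_mul, Complex.conj_I, Complex.conj_ofReal]
  push_cast
  ring

lemma phs_one (θ : ℝ) {n : ℕ} (x : Fin n) : phs θ 1 (1 / 2) x x = uu θ x := by
  unfold phs uu
  rw [Matrix.diagonal_apply_eq]
  congr 3
  ring

lemma phs_neg (θ : ℝ) {n : ℕ} (x : Fin n) : phs θ (-1) (1 / 2) x x = star (uu θ x) := by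
  rw [star_uu]
  unfold phs
  rw [Matrix.diagonal_apply_eq]
  congr 3
  ring

lemma ee_eq (θ : ℝ) (x : ℕ) : ee θ (-((2 * (x : ℝ) + 1) / 2)) = star (uu θ x) := by
  rw [star_uu]
  unfold ee
  congr 3
  ring

lemma phs_sum (θ s x0 : ℝ) {n : ℕ} (x : Fin n) (g : Fin n → ℂ) :
    ∑ j, phs θ s x0 x j * g j = phs θ s x0 x x * g x := by
  unfold phs
  rw [diag_sum, Matrix.diagonal_apply_eq]

lemma lDD_diag (L : ℕ) (i : Fin (L - 1)) : lDD L i i = 2 := by
  unfold lDD
  rw [Matrix.mul_apply]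
  simp only [Matrix.transpose_apply]
  have hi := i.2
  have e : ∀ j : Fin L, dm L (L - 1) j i * dm L (L - 1) j i =
      (if j = (⟨i, by omega⟩ : Fin L) then (1 : ℝ) else 0) +
        (if j = (⟨i + 1, by omega⟩ : Fin L) then (1 : ℝ) else 0) := by
    intro j
    unfold dm
    simp only [Fin.ext_iff]
    by_cases h1 : (i : ℕ) = j
    · rw [if_pos h1, if_neg (by omega), if_pos h1.symm, if_neg (by omega)]
      norm_num
    · by_cases h2 : (i : ℕ) + 1 = j
      · rw [if_neg h1, if_pos h2, if_neg (fun h => h1 h.symm), if_pos h2.symm]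
        norm_num
      · rw [if_neg h1, if_neg h2, if_neg (fun h => h1 h.symm), if_neg (fun h => h2 h.symm)]
        norm_num
  rw [Finset.sum_congr rfl fun j _ => e j, Finset.sum_add_distrib, Finset.sum_ite_eq',
    Finset.sum_ite_eq', if_pos (Finset.mem_univ _), if_pos (Finset.mem_univ _)]
  norm_num

lemma cx_one (n : ℕ) : cx (1 : Matrix (Fin n) (Fin n) ℝ) = 1 := by
  ext i j
  by_cases h : i = j
  · subst h; simp
  · simp [Matrix.one_apply_ne h]

lemma gg (L : ℕ) : g1 L * (g1 L)ᴴ = k4 (cx (lNN L)) 1 1 1 := by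
  unfold g1
  rw [k4_ct, k4_mul]
  simp only [Matrix.conjTranspose_one, Matrix.mul_one]
  congr 1
  ext i j
  rw [Matrix.mul_apply]
  simp only [lNN, Matrix.map_apply, Matrix.mul_apply, Matrix.transpose_apply,
    Matrix.conjTranspose_apply]
  push_cast
  refine Finset.sum_congr rfl fun k _ => ?_
  congr 1
  exact Complex.conj_ofReal _

lemma Mb (L : ℕ) (θ : ℝ) (b : I1 L → ℂ) (x : Fin L) (p q : Fin (L - 1)) (s : Fin L) :
    ∑ j, (m11 L θ - g1 L * (g1 L)ᴴ) (x, p, q, s) j * b j =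
    (2 * ((Real.cos (θ / 2) : ℝ) : ℂ) * b (x, p, q, s) -
      uu θ x * ext1 (L - 1) (fun p' => b (x, p', q, s)) ((p : ℕ) + 2) -
      star (uu θ x) * ext1 (L - 1) (fun p' => b (x, p', q, s)) p) +
    ∑ q', (cx (lDD L)) q q' * b (x, p, q', s) + ∑ s', (cx (lDN L)) s s' * b (x, p, q, s') := by
  have h1 : ∀ j, (m11 L θ - g1 L * (g1 L)ᴴ) (x, p, q, s) j * b j =
      k4 1 (Matrix.diagonal fun i => ((lDD L i i : ℝ) : ℂ)) 1 1 (x, p, q, s) j * b j -
      k4 (phs θ 1 (1 / 2)) (cx (tm (L - 1))) 1 1 (x, p, q, s) j * b j -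
      k4 (phs θ (-1) (1 / 2)) (cx (tm (L - 1))ᵀ) 1 1 (x, p, q, s) j * b j +
      k4 1 1 (cx (lDD L)) 1 (x, p, q, s) j * b j +
      k4 1 1 1 (cx (lDN L)) (x, p, q, s) j * b j -
      kap θ * ((1 : Matrix (I1 L) (I1 L) ℂ) (x, p, q, s) j * b j) := by
    intro j
    rw [gg]
    unfold m11 covL
    simp only [Matrix.sub_apply, Matrix.add_apply, Matrix.smul_apply, smul_eq_mul]
    ring
  rw [Finset.sum_congr rfl fun j _ => h1 j, Finset.sum_sub_distrib, Finset.sum_add_distrib,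
    Finset.sum_add_distrib, Finset.sum_sub_distrib, Finset.sum_sub_distrib, ← Finset.mul_sum,
    one_sum]
  simp only [k4_sum, one_sum, diag_sum, phs_sum, tm_sum, tmT_sum, phs_one, phs_neg, lDD_diag]
  unfold kap
  push_cast
  ring

lemma ex_y (L : ℕ) (b : I1 L → ℂ) (x : Fin L) (y : ℕ) (q : Fin (L - 1)) (s : Fin L) :
    ex1 L b 0 x y ((q : ℕ) + 1) ((s : ℕ) + 1) = ext1 (L - 1) (fun p => b (x, p, q, s)) y := by
  unfold ex1 ext1
  by_cases c : y - 1 < L - 1 ∧ 1 ≤ y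
  · rw [dif_pos ⟨⟨x.2, c.1, by simp, by simp⟩, c.2, by omega, by omega⟩, dif_pos c]
    rfl
  · rw [dif_neg (fun h => c ⟨h.1.2.1, h.2.1⟩), dif_neg c]

lemma ex_z (L : ℕ) (b : I1 L → ℂ) (x : Fin L) (p : Fin (L - 1)) (z : ℕ) (s : Fin L) :
    ex1 L b 0 x ((p : ℕ) + 1) z ((s : ℕ) + 1) = ext1 (L - 1) (fun q => b (x, p, q, s)) z := by
  unfold ex1 ext1
  by_cases c : z - 1 < L - 1 ∧ 1 ≤ z
  · rw [dif_pos ⟨⟨x.2, by simp, c.1, by simp⟩, by omega, c.2, by omega⟩, dif_pos c]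
    rfl
  · rw [dif_neg (fun h => c ⟨h.1.2.2.1, h.2.2.1⟩), dif_neg c]

lemma ex_h (L : ℕ) (b : I1 L → ℂ) (x : Fin L) (p q : Fin (L - 1)) (h : ℕ) :
    ex1 L b 0 x ((p : ℕ) + 1) ((q : ℕ) + 1) h = ext1 L (fun s => b (x, p, q, s)) h := by
  unfold ex1 ext1
  by_cases c : h - 1 < L ∧ 1 ≤ h
  · rw [dif_pos ⟨⟨x.2, by simp, by simp, c.1⟩, by omega, by omega, c.2⟩, dif_pos c]
    rfl
  · rw [dif_neg (fun h => c ⟨h.1.2.2.2, h.2.2.2⟩), dif_neg c]

lemma sIco (L : ℕ) (g : ℕ → ℝ) : ∑ z ∈ Ico 1 L, g z = ∑ q : Fin (L - 1), g ((q : ℕ) + 1) := by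
  rw [Finset.sum_Ico_eq_sum_range, Finset.sum_range]
  exact Finset.sum_congr rfl fun q _ => by rw [add_comm]

lemma sIcc (L : ℕ) (g : ℕ → ℝ) : ∑ z ∈ Icc 1 L, g z = ∑ q : Fin L, g ((q : ℕ) + 1) := by
  have h : Icc 1 L = Ico 1 (L + 1) := by
    ext a
    rw [Finset.mem_Icc, Finset.mem_Ico]
    omega
  rw [h, Finset.sum_Ico_eq_sum_range, Finset.sum_range]
  exact Finset.sum_congr rfl fun q _ => by rw [add_comm]

lemma reo {α β γ : Type} (A : Finset α) (B : Finset β) (C : Finset γ) (g : α → β → γ → ℝ) :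
    ∑ y ∈ A, ∑ q ∈ B, ∑ s ∈ C, g y q s = ∑ q ∈ B, ∑ s ∈ C, ∑ y ∈ A, g y q s := by
  rw [Finset.sum_comm]
  refine Finset.sum_congr rfl fun q _ => ?_
  rw [Finset.sum_comm]

theorem tq11 : S_Q11 := by
  intro L hL θ b
  -- the right side
  have hR : hf b (m11 L θ - g1 L * (g1 L)ᴴ) b =
      ∑ x : Fin L, ∑ p : Fin (L - 1), ∑ q : Fin (L - 1), ∑ s : Fin L,
        ((star (b (x, p, q, s)) * (2 * ((Real.cos (θ / 2) : ℝ) : ℂ) * b (x, p, q, s) -
          uu θ x * ext1 (L - 1) (fun p' => b (x, p', q, s)) ((p : ℕ) + 2) -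
          star (uu θ x) * ext1 (L - 1) (fun p' => b (x, p', q, s)) p)).re +
        (star (b (x, p, q, s)) * ∑ q', (cx (lDD L)) q q' * b (x, p, q', s)).re +
        (star (b (x, p, q, s)) * ∑ s', (cx (lDN L)) s s' * b (x, p, q, s')).re) := by
    unfold hf
    have h1 : ∀ i, ∑ j, star (b i) * (m11 L θ - g1 L * (g1 L)ᴴ) i j * b j =
        star (b i) * ∑ j, (m11 L θ - g1 L * (g1 L)ᴴ) i j * b j := by
      intro i
      rw [Finset.mul_sum]
      exact Finset.sum_congr rfl fun j _ => by rw [mul_assoc]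
    rw [Finset.sum_congr rfl fun i _ => h1 i, Complex.re_sum]
    simp only [Fintype.sum_prod_type]
    refine Finset.sum_congr rfl fun x _ => Finset.sum_congr rfl fun p _ =>
      Finset.sum_congr rfl fun q _ => Finset.sum_congr rfl fun s _ => ?_
    have h2 := Mb L θ b x p q s
    simp only [Fintype.sum_prod_type] at h2
    rw [h2, mul_add, mul_add, Complex.add_re, Complex.add_re]
  -- the plane 12
  have h12 : s12 L (fun x y z h => (1 / 2) * Real.cos (θ / 2) *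
      (‖ex1 L b 0 x y z h‖ ^ 2 + ‖ex1 L b 0 x (y + 1) z h‖ ^ 2) -
      (ee θ (-((2 * x + 1) / 2)) * ex1 L b 0 x y z h * star (ex1 L b 0 x (y + 1) z h)).re) =
      (1 / 2) * ∑ x : Fin L, ∑ p : Fin (L - 1), ∑ q : Fin (L - 1), ∑ s : Fin L,
        (star (b (x, p, q, s)) * (2 * ((Real.cos (θ / 2) : ℝ) : ℂ) * b (x, p, q, s) -
          uu θ x * ext1 (L - 1) (fun p' => b (x, p', q, s)) ((p : ℕ) + 2) -
          star (uu θ x) * ext1 (L - 1) (fun p' => b (x, p', q, s)) p)).re := by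
    unfold s12
    simp only [sIco, sIcc]
    rw [Finset.sum_range, Finset.mul_sum]
    refine Finset.sum_congr rfl fun x _ => ?_
    simp only [ex_y, ee_eq]
    rw [reo, reo (univ : Finset (Fin (L - 1))) (univ : Finset (Fin (L - 1)))
      (univ : Finset (Fin L)), Finset.mul_sum]
    refine Finset.sum_congr rfl fun q _ => ?_
    rw [Finset.mul_sum]
    refine Finset.sum_congr rfl fun s _ => ?_
    rw [hop' (fun p => b (x, p, q, s)) (Real.cos (θ / 2)) (uu θ x) L (by omega), Complex.re_sum]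
  -- the plane 13
  have h13 : s13 L (fun x y z h => (1 / 2) * ‖ex1 L b 0 x y z h - ex1 L b 0 x y (z + 1) h‖ ^ 2) =
      (1 / 2) * ∑ x : Fin L, ∑ p : Fin (L - 1), ∑ q : Fin (L - 1), ∑ s : Fin L,
        (star (b (x, p, q, s)) * ∑ q', (cx (lDD L)) q q' * b (x, p, q', s)).re := by
    unfold s13
    simp only [sIco, sIcc]
    rw [Finset.sum_range, Finset.mul_sum]
    refine Finset.sum_congr rfl fun x _ => ?_
    rw [Finset.mul_sum]
    refine Finset.sum_congr rfl fun p _ => ?_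
    simp only [ex_z]
    have hc : ∑ q : Fin (L - 1), ∑ s : Fin L,
        (star (b (x, p, q, s)) * ∑ q', (cx (lDD L)) q q' * b (x, p, q', s)).re =
        ∑ s : Fin L, ∑ q : Fin (L - 1),
        (star (b (x, p, q, s)) * ∑ q', (cx (lDD L)) q q' * b (x, p, q', s)).re :=
      Finset.sum_comm
    rw [hc, Finset.sum_comm, Finset.mul_sum]
    refine Finset.sum_congr rfl fun s _ => ?_
    have h1 := dd_form (fun q => b (x, p, q, s)) L
    rw [← Complex.re_sum]
    show _ = 1 / 2 * (∑ q, star (b (x, p, q, s)) *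
      ∑ q', (cx ((dm L (L - 1))ᵀ * dm L (L - 1))) q q' * b (x, p, q', s)).re
    rw [h1, ← Finset.mul_sum, Finset.sum_range]
    congr 1
    exact Finset.sum_congr rfl fun j _ => by rw [norm_sub_rev]
  -- the plane 14
  have h14 : s14 L (fun x y z h => (1 / 2) * ‖ex1 L b 0 x y z (h + 1) - ex1 L b 0 x y z h‖ ^ 2) =
      (1 / 2) * ∑ x : Fin L, ∑ p : Fin (L - 1), ∑ q : Fin (L - 1), ∑ s : Fin L,
        (star (b (x, p, q, s)) * ∑ s', (cx (lDN L)) s s' * b (x, p, q, s')).re := by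
    unfold s14
    simp only [sIco]
    rw [Finset.sum_range, Finset.mul_sum]
    refine Finset.sum_congr rfl fun x _ => ?_
    rw [Finset.mul_sum]
    refine Finset.sum_congr rfl fun p _ => ?_
    rw [Finset.mul_sum]
    refine Finset.sum_congr rfl fun q _ => ?_
    simp only [ex_h]
    have h1 := dd_form (fun s => b (x, p, q, s)) L
    rw [← Complex.re_sum]
    show _ = 1 / 2 * (∑ s, star (b (x, p, q, s)) *
      ∑ s', (cx ((dm L L)ᵀ * dm L L)) s s' * b (x, p, q, s')).re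
    rw [h1, ← Finset.mul_sum, Finset.sum_range]
  rw [hR, h12, h13, h14]
  simp only [Finset.sum_add_distrib]
  ring

end

end Pool.Agent.H86.AF
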